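import Pool.Agent.Helper15.PC.Meet

/-!
Weak chains of sets and the size of `pcf(a_α)`.  Let `κ` be infinite and let `λ > κ` be regular.  A
weak `λ`-chain in the power set of `κ` is a sequence of subsets `A_β` (`β < λ`) of `κ` such that no
`A_β` is covered by finitely many `A_γ`, `γ < β`, and every `β < λ` of uncountable cofinality has a
club of `δ < β` with `A_δ ⊆ A_β`.

(1) If `α` is a limit ordinal, `|a_α| ≤ κ` and `λ ≤ |pcf(a_α)|`, there is a weak `λ`-chain.

(2) Let there be a weak `λ`-chain in the power set of `κ`.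
  (a) `λ ≤ 2^κ` and `λ ≤ κ⁺⁺⁺`, and if `λ = κ⁺⁺⁺` then `𝔟(κ⁺) ≤ λ ≤ 𝔡(κ⁺)`.
  (b) If `θ` is regular, `κ < θ < λ`, and `P` is a family of fewer than `λ` bounded subsets of `θ`,
  there are a club `D` of `θ` and `κ` stationary subsets of `θ` such that no `z ∈ P` with `z ⊆ D`
  meets all of them.
  (c) Every stationary `S ⊆ λ` has at most `κ` stationary subsets without a common reflection point.
  (d) If `λ = μ⁺`, `μ > κ` regular, the power set of `κ` does not have the `μ`-Freese–Nation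
  property, nor the weaker property `Sep`.

(3) So `|pcf(a_α)| ≤ μ` if `μ > κ ≥ |a_α|` is regular and the power set of `κ` has one of these two
properties.  In particular, if the power set of `ω` has the weak Freese–Nation property, then
`|pcf(a_α)| ≤ ℵ₁` for every limit ordinal `α` with `a_α` countable.
-/

set_option autoImplicit false

open Cardinal Helper23.Pcf Helper85.Refl Pool.Agent.Helper15.PC

universe u

namespace Helper55.CR.OldWeakChains

theorem bound {α : Ordinal.{u}} {X : Type u} {μ : Cardinal.{u}} (hα : Order.IsSuccLimit α)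
    (hμ : μ.IsRegular) (hX : #(aSet α) ≤ Cardinal.lift.{u + 1} #X) (hXμ : #X < μ)
    (hS : Sep X μ) : #(pcf (aSet α)) ≤ Cardinal.lift.{u + 1} μ := by
  by_contra hcon
  push Not at hcon
  have hp : Cardinal.lift.{u + 1} (Order.succ μ) ≤ #(pcf (aSet α)) := by
    rw [Cardinal.lift_succ]; exact Order.succ_le_of_lt hcon
  have hX0 : ℵ₀ ≤ #X := by
    refine aleph0_le_of_large hα hX ?_ hp
    simp
  obtain ⟨A, hA⟩ := exists_chain' hα hX (Cardinal.isRegular_succ hμ.1)
    (hXμ.trans (Order.lt_succ μ)) hp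
  exact no_chain hμ (hX0.trans_lt hXμ) hS A hA

theorem result :
    -- (1)
    (∀ (α : Ordinal.{u}) (X : Type u) (lam : Cardinal.{u}), Order.IsSuccLimit α →
      #(aSet α) ≤ Cardinal.lift.{u + 1} #X → lam.IsRegular → #X < lam →
      Cardinal.lift.{u + 1} lam ≤ #(pcf (aSet α)) →
      ∃ A : Ordinal.{u} → Set X, WeakChain A lam.ord) ∧
    -- (2)
    (∀ (X : Type u) (lam : Cardinal.{u}) (A : Ordinal.{u} → Set X), ℵ₀ ≤ #X → lam.IsRegular →
      #X < lam → WeakChain A lam.ord →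
      -- (a)
      (lam ≤ 2 ^ #X ∧ lam ≤ Order.succ (Order.succ (Order.succ #X)) ∧
        (lam = Order.succ (Order.succ (Order.succ #X)) → bNum #X ≤ lam ∧ lam ≤ dNum #X)) ∧
      -- (b)
      (∀ (θ : Cardinal.{u}) (P : Set (Set Ordinal.{u})), θ.IsRegular → #X < θ → θ < lam →
        #P < Cardinal.lift.{u + 1} lam → (∀ z ∈ P, ∃ j < θ.ord, z ⊆ Set.Iio j) →
        ∃ (D : Set Ordinal.{u}) (S : X → Set Ordinal.{u}), ClubIn D θ.ord ∧
          (∀ x, StatIn (S x) θ.ord) ∧ ∀ z ∈ P, z ⊆ D → ∃ x, z ∩ S x = ∅) ∧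
      -- (c)
      (∀ S : Set Ordinal.{u}, StatIn S lam.ord → ∃ T : Set (Set Ordinal.{u}),
        #T ≤ Cardinal.lift.{u + 1} #X ∧ (∀ Z ∈ T, Z ⊆ S ∧ StatIn Z lam.ord) ∧
        ∀ β < lam.ord, ℵ₀ < β.cof → ∃ Z ∈ T, ¬ StatIn Z β) ∧
      -- (d)
      (∀ μ : Cardinal.{u}, μ.IsRegular → #X < μ → lam = Order.succ μ → ¬ FN X μ ∧ ¬ Sep X μ)) ∧
    -- (3)
    (∀ (α : Ordinal.{u}) (X : Type u) (μ : Cardinal.{u}), Order.IsSuccLimit α → μ.IsRegular →
      #(aSet α) ≤ Cardinal.lift.{u + 1} #X → #X < μ → FN X μ ∨ Sep X μ →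
      #(pcf (aSet α)) ≤ Cardinal.lift.{u + 1} μ) ∧
    (WFN → ∀ α : Ordinal.{u}, Order.IsSuccLimit α → #(aSet α) ≤ ℵ₀ →
      #(pcf (aSet α)) ≤ ℵ₁) := by
  refine ⟨fun α X lam hα hX hlam hXlam hp => exists_chain' hα hX hlam hXlam hp,
    fun X lam A h0 hlam hXlam hA => ⟨⟨le_power hA, le_succ3 h0 hlam hA, ?_⟩,
      fun θ P hθ hXθ hθlam hP hPb => no_meet h0 hθ hXθ hlam hθlam hA hP hPb,
      fun S hS => no_reflection h0 hlam hXlam hA hS, ?_⟩,
    fun α X μ hα hμ hX hXμ h => bound hα hμ hX hXμ (h.elim (sep_of_fn hμ) id), ?_⟩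
  · rintro rfl
    exact b_le_d_succ3 h0 hA
  · rintro μ hμ hXμ rfl
    have h1 : ¬ Sep X μ := fun h => no_chain hμ (h0.trans_lt hXμ) h A hA
    exact ⟨fun h => h1 (sep_of_fn hμ h), h1⟩
  · intro h α hα hc
    have h1 := bound (X := ULift.{u} ℕ) hα Cardinal.isRegular_aleph_one (by simpa using hc)
      (by simp) (sep_of_fn Cardinal.isRegular_aleph_one (fn_of_wfn h))
    simpa using h1

end Helper55.CR.OldWeakChains
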