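import Pool.Agent.Helper55.CR.OldKurepaType

/-!
The inequality `|pcf(a_α)| ≤ |a_α|` passes to every infinite cardinal without a Kurepa family: if
`κ` is an infinite cardinal, there is no Kurepa family on `κ` and `|pcf(a_x)| ≤ |a_x|` for all limit
ordinals `x < κ`, then `|pcf(a_κ)| ≤ |a_κ|`.
-/

set_option autoImplicit false

open Cardinal Helper23.Pcf

universe u

namespace Helper55.CR.Kurepa

/-- A Kurepa family on `κ`: a family of more than `κ` subsets of `κ` such that the family of the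
intersections of its members with `x` has cardinality at most `|x|` for all infinite `x < κ`. -/
def KurepaFamily (κ : Cardinal.{u}) : Prop :=
  ∃ F : Set (Set Ordinal.{u}), (∀ X ∈ F, X ⊆ Set.Iio κ.ord) ∧ Cardinal.lift.{u + 1} κ < #F ∧
    ∀ x < κ.ord, ℵ₀ ≤ x.card →
      #((fun X => X ∩ Set.Iio x) '' F) ≤ Cardinal.lift.{u + 1} x.card

theorem result {κ : Cardinal.{u}} (h0 : ℵ₀ ≤ κ) (hK : ¬ KurepaFamily κ)
    (hlt : ∀ x < κ.ord, Order.IsSuccLimit x → #(pcf (aSet x)) ≤ #(aSet x)) :
    #(pcf (aSet κ.ord)) ≤ #(aSet κ.ord) := by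
  by_contra hcon
  rw [not_le] at hcon
  exact hK (OldKurepaType.kurepa h0 hcon hlt)

end Helper55.CR.Kurepa
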