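import Pool.Agent.Helper55.CP.Main

/-!
Patterns of cofinalities and mutual stationarity from a violation of `|pcf(a_α)| ≤ |a_α|`.  Let `α`
be a limit ordinal with `|a_α| < |pcf(a_α)|`, let `n < ω` and `θ = |α|^{+n}`.

(1) For every family `F` of at most `θ` finitary operations on the ordinals there is an infinite
`A ⊆ a_α` such that for every function `f` from `A` to the regular cardinals `≤ θ` there is an
`F`-closed set `M ⊇ θ` of `θ` ordinals with `cf (sup (M ∩ x)) = f x` for all `x ∈ A`.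

(2) If `|a_α|^{ℵ₀} ≤ θ`, there is an infinite `A ⊆ a_α` such that all sequences of sets `S_x ⊆ x`
(`x ∈ A`), each stationary in all `δ` of cofinality `θ⁺` from some club of `x`, are mutually
stationary: for every `F` some `M` as in (1) has `sup (M ∩ x) ∈ S_x` for all `x ∈ A`.
-/

set_option autoImplicit false

open Cardinal Helper23.Pcf

universe u

namespace Helper55.CR.Mutual

/-- Some `F`-closed set `M ⊇ θ` of at most `θ` ordinals has `sup (M ∩ x) ∈ S_x` for all `x ∈ A`. -/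
def Met (θ : Cardinal.{u}) {I : Type u} (F : I → List Ordinal.{u} → Ordinal.{u})
    (A : Set Cardinal.{u}) (S : Cardinal.{u} → Set Ordinal.{u}) : Prop :=
  ∃ M : Set Ordinal.{u}, (∀ i l, (∀ z ∈ l, z ∈ M) → F i l ∈ M) ∧
    Set.Iio θ.ord ⊆ M ∧ #M ≤ Cardinal.lift.{u + 1} θ ∧
    ∀ x ∈ A, ∃ s ∈ S x, s < x.ord ∧ IsLUB (M ∩ Set.Iio x.ord) s

theorem result {α : Ordinal.{u}} (hα : Order.IsSuccLimit α)
    (hv : #(aSet α) < #(pcf (aSet α))) (n : ℕ) (θ : Cardinal.{u})
    (hθ : θ = Order.succ^[n] α.card) :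
    -- (1)
    (∀ (I : Type u) (F : I → List Ordinal.{u} → Ordinal.{u}), #I ≤ θ →
      ∃ A ⊆ aSet α, A.Infinite ∧ ∀ f : Cardinal.{u} → Cardinal.{u},
        (∀ x ∈ A, (f x).IsRegular ∧ f x ≤ θ) → Met θ F A fun x => {s | s.cof = f x}) ∧
    -- (2)
    (#(aSet α) ^ ℵ₀ ≤ Cardinal.lift.{u + 1} θ →
      ∃ A ⊆ aSet α, A.Infinite ∧ ∀ S : Cardinal.{u} → Set Ordinal.{u},
        (∀ x ∈ A, ∃ C, ClubIn C x.ord ∧ ∀ δ ∈ C, δ < x.ord → δ.cof = Order.succ θ →
          StatIn (S x) δ) →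
        ∀ (I : Type u) (F : I → List Ordinal.{u} → Ordinal.{u}), #I ≤ θ → Met θ F A S) := by
  have h : Order.succ^[n] α.card = succN α.card n := by
    clear hθ
    induction n with
    | zero => rfl
    | succ n ih => rw [Function.iterate_succ_apply', ih]; rfl
  rw [h] at hθ
  subst hθ
  refine ⟨fun I F hI => ?_, fun hpow => Helper55.CP.main_all hα hv n hpow⟩
  obtain ⟨A, hA, hAinf, hf⟩ := Helper55.CP.main_cof hα hv n hI F
  refine ⟨A, hA, hAinf, fun f hf' => ?_⟩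
  obtain ⟨M, h1, h2, h3, h4⟩ := hf f hf'
  refine ⟨M, h1, h2, h3, fun x hx => ?_⟩
  obtain ⟨s, h5, h6, h7⟩ := h4 x hx
  exact ⟨s, h6, h5, h7⟩

end Helper55.CR.Mutual
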