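import Pool.Agent.Helper23.Pcf.Kurepa

/-!
Representation of `pcf(a_α)` by subsets of `a_α` with few traces, and its consequences.

(1) For every limit ordinal `α` there are subsets `B_l` of `a_α`, `l ∈ pcf(a_α)`, with
`l = max pcf(B_l)` (so they are different) such that for every `W ⊆ a_α` the number of traces
`B_l ∩ W` is at most `max(ℵ₀, |pcf(W)|)`.

(2) Let `κ` be an infinite cardinal with `|pcf(a_κ)| > |a_κ|` and `|pcf(a_x)| ≤ |a_x|` for all limit
ordinals `x < κ`.  Then there is a Kurepa family on `κ`: more than `κ` subsets of `κ` with at most `|x|`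
traces on each infinite `x < κ`.

(3) Let `|pcf(a_α)| > |a_α| = κ` and let `ν < κ` be infinite.  Then some `W ⊆ a_α` with `|W| ≤ ν` has
`|pcf(W)| > ν`, or Chang's conjecture `(κ⁺, κ) ↠ (ν⁺, ν)` fails.
-/

set_option autoImplicit false

open Cardinal Helper23.Pcf

universe u

namespace Helper55.CR.OldKurepaType

/-- A Kurepa family on `κ`: a family of more than `κ` subsets of `κ` such that the family of the
intersections of its members with `x` has cardinality at most `|x|` for all infinite `x < κ`. -/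
def KurepaFamily (κ : Cardinal.{u}) : Prop :=
  ∃ F : Set (Set Ordinal.{u}), (∀ X ∈ F, X ⊆ Set.Iio κ.ord) ∧ Cardinal.lift.{u + 1} κ < #F ∧
    ∀ x < κ.ord, ℵ₀ ≤ x.card →
      #((fun X => X ∩ Set.Iio x) '' F) ≤ Cardinal.lift.{u + 1} x.card

/-- The instance of Chang's conjecture `(κ⁺, κ) ↠ (ν⁺, ν)` for binary functions: for every
`f : κ⁺ × κ⁺ → κ⁺` there is a set `X ⊆ κ⁺` of size `ν⁺` that is closed under `f` and has at most
`ν` members below `κ`. -/
def Chang (κ ν : Cardinal.{u}) : Prop :=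
  ∀ f : Ordinal.{u} → Ordinal.{u} → Ordinal.{u},
    (∀ x < (Order.succ κ).ord, ∀ y < (Order.succ κ).ord, f x y < (Order.succ κ).ord) →
    ∃ X ⊆ Set.Iio (Order.succ κ).ord, (∀ x ∈ X, ∀ y ∈ X, f x y ∈ X) ∧
      #X = Cardinal.lift.{u + 1} (Order.succ ν) ∧
      #(X ∩ Set.Iio κ.ord : Set Ordinal.{u}) ≤ Cardinal.lift.{u + 1} ν

/-- everything about a limit ordinal `α` -/
theorem setup {α : Ordinal.{u}} (hα : Order.IsSuccLimit α) (hne : (aSet α).Nonempty) :
    ∃ (γ : Ordinal.{u}), α.card = ℵ_ γ ∧ γ < α ∧ aSet α = ival (ℵ_ γ) (ℵ_ α) ∧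
      #(aSet α) = Cardinal.lift.{u + 1} (α - γ).card ∧ ℵ₀ ≤ (α - γ).card ∧
      (α - γ).card ≤ ℵ_ γ := by
  have hα0 : ℵ₀ ≤ α.card := by
    rw [Ordinal.aleph0_le_card]
    exact Ordinal.omega0_le_of_isSuccLimit hα
  obtain ⟨γ, hγ'⟩ := Cardinal.mem_range_aleph_iff.2 hα0
  have hγ : α.card = ℵ_ γ := hγ'.symm
  have hγα : γ < α := by
    obtain ⟨κ, hκ⟩ := hne
    rw [← Cardinal.aleph_lt_aleph, hγ']
    exact (Order.succ_le_iff.1 hκ.2.1).trans hκ.2.2
  have hA : aSet α = ival (ℵ_ γ) (ℵ_ α) := aSet_eq hγ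
  refine ⟨γ, hγ, hγα, hA, by rw [hA, mk_ival hα hγα], ?_, ?_⟩
  · rw [Ordinal.aleph0_le_card]
    exact Ordinal.omega0_le_of_isSuccLimit (sub_isSuccLimit hα hγα)
  · rw [← hγ]; exact Ordinal.card_le_card (Ordinal.sub_le_self _ _)

theorem sub_eq {α : Ordinal.{u}} {W : Set Cardinal.{u}} (hW : W ⊆ aSet α) : pcf W = pcfS W := by
  have : Small.{u} W := small_subset hW
  exact pcf_eq_pcfS fun μ h => (hW h).1

/-- part (1) -/
theorem traces {α : Ordinal.{u}} (hα : Order.IsSuccLimit α) :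
    ∃ B : Cardinal.{u} → Set Cardinal.{u},
      (∀ l ∈ pcf (aSet α), B l ⊆ aSet α ∧ l ∈ pcf (B l) ∧ ∀ m ∈ pcf (B l), m ≤ l) ∧
      ∀ W ⊆ aSet α, #((fun l => B l ∩ W) '' pcf (aSet α)) ≤ max ℵ₀ #(pcf W) := by
  rcases (aSet α).eq_empty_or_nonempty with hne | hne
  · refine ⟨fun _ => ∅, ?_, ?_⟩
    · rw [pcf_aSet, hne, pcfS_empty]
      intro l hl
      exact absurd hl (Set.notMem_empty l)
    · intro W _
      rw [pcf_aSet, hne, pcfS_empty]
      simp
  · obtain ⟨γ, hγ, hγα, hA, hAc, h0, hκγ⟩ := setup hα hne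
    obtain ⟨B, h1, h2⟩ := trace_family h0 le_rfl hκγ hα hγα
    rw [← hA, ← pcf_aSet] at h1 h2
    refine ⟨B, fun l hl => ?_, fun W hW => ?_⟩
    · obtain ⟨g1, g2, g3⟩ := h1 l hl
      rw [sub_eq g1]
      exact ⟨g1, g2, g3⟩
    · rw [sub_eq hW]
      exact h2 W hW

theorem kurepa {κ : Cardinal.{u}} (h0 : ℵ₀ ≤ κ) (h : #(aSet κ.ord) < #(pcf (aSet κ.ord)))
    (hlt : ∀ x < κ.ord, Order.IsSuccLimit x → #(pcf (aSet x)) ≤ #(aSet x)) : KurepaFamily κ := by
  have hlim : Order.IsSuccLimit κ.ord := Cardinal.isSuccLimit_ord h0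
  have hne : (aSet κ.ord).Nonempty := by
    by_contra hcon
    rw [Set.not_nonempty_iff_eq_empty] at hcon
    rw [pcf_aSet, hcon, pcfS_empty] at h
    exact lt_irrefl _ h
  obtain ⟨γ, hγ, hγα, hA, hAc, _, _⟩ := setup hlim hne
  rw [Cardinal.card_ord] at hγ
  have hAκ : #(aSet κ.ord) = Cardinal.lift.{u + 1} κ := by
    rw [hAc]
    congr 1
    have hadd : γ + κ.ord = κ.ord := (Ordinal.isPrincipal_add_ord h0).add_eq_right hγα
    have : κ.ord - γ = κ.ord := by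
      conv_lhs => rw [← hadd]
      exact Ordinal.add_sub_cancel _ _
    rw [this, Cardinal.card_ord]
  obtain ⟨B, hB1, hB2⟩ := traces hlim
  have hinj : ∀ l ∈ pcf (aSet κ.ord), ∀ l' ∈ pcf (aSet κ.ord), B l = B l' → l = l' := by
    intro l hl l' hl' hll
    obtain ⟨_, g2, g3⟩ := hB1 l hl
    obtain ⟨_, g2', g3'⟩ := hB1 l' hl'
    rw [hll] at g2 g3
    exact le_antisymm (g3' l g2) (g3 l' g2')
  -- the sets of indices
  let X : Cardinal.{u} → Set Ordinal.{u} := fun l => {ξ | ℵ_ ξ ∈ B l}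
  have hXB : ∀ l ∈ pcf (aSet κ.ord), B l = Cardinal.aleph '' X l := by
    intro l hl
    ext μ
    constructor
    · intro hμ
      obtain ⟨z, hz⟩ := Cardinal.mem_range_aleph_iff.2 ((hB1 l hl).1 hμ).1.1
      exact ⟨z, by show ℵ_ z ∈ B l; rw [hz]; exact hμ, hz⟩
    · rintro ⟨z, hz, rfl⟩
      exact hz
  refine ⟨X '' pcf (aSet κ.ord), ?_, ?_, ?_⟩
  · rintro _ ⟨l, hl, rfl⟩ ξ hξ
    have := ((hB1 l hl).1 hξ).2.2
    rwa [Cardinal.aleph_lt_aleph] at this
  · rw [Cardinal.mk_image_eq_of_injOn _ _ ?_]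
    · rw [← hAκ]; exact h
    · intro l hl l' hl' hll
      exact hinj l hl l' hl' (by rw [hXB l hl, hXB l' hl', hll])
  · intro x hx hx0
    have hW : ∀ x < κ.ord, #(pcf (aSet κ.ord ∩ Set.Iio (ℵ_ x))) ≤
        Cardinal.lift.{u + 1} (max ℵ₀ x.card) := by
      intro x
      have hs : ∀ x, pcf (aSet κ.ord ∩ Set.Iio (ℵ_ x)) = pcfS (aSet κ.ord ∩ Set.Iio (ℵ_ x)) :=
        fun x => sub_eq Set.inter_subset_left
      simp only [hs]
      induction x using Ordinal.limitRecOn with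
      | zero =>
        intro _
        have : aSet κ.ord ∩ Set.Iio (ℵ_ (0 : Ordinal.{u})) = ∅ := by
          ext μ
          simp only [Set.mem_inter_iff, Set.mem_Iio, Set.mem_empty_iff_false, iff_false, not_and,
            not_lt]
          intro h
          rw [Cardinal.aleph_zero]
          exact h.1.1
        rw [this, pcfS_empty]; simp
      | add_one y ih =>
        intro hy
        have hy' : y < y + 1 := Order.lt_add_one_iff.2 le_rfl
        have h2 : aSet κ.ord ∩ Set.Iio (ℵ_ (y + 1)) ⊆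
            aSet κ.ord ∩ Set.Iio (ℵ_ y) ∪ {μ | μ.IsRegular ∧ μ = ℵ_ y} := by
          rintro μ ⟨g1, g3⟩
          rw [Set.mem_Iio, ← Cardinal.succ_aleph, Order.lt_succ_iff] at g3
          rcases g3.eq_or_lt with h | h
          · exact Or.inr ⟨g1.1, h⟩
          · exact Or.inl ⟨g1, h⟩
        refine (Cardinal.mk_le_mk_of_subset (pcfS_mono h2)).trans ?_
        rw [pcfS_union]
        have hinf : ℵ₀ ≤ Cardinal.lift.{u + 1} (max ℵ₀ (y + 1).card) :=
          Cardinal.aleph0_le_lift.2 (le_max_left _ _)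
        refine (Cardinal.mk_union_le _ _).trans (Cardinal.add_le_of_le hinf ?_ ?_)
        · refine (ih (hy'.trans hy)).trans (Cardinal.lift_le.2 ?_)
          exact max_le_max le_rfl (Ordinal.card_le_card hy'.le)
        · exact finite_pcf_le ((Set.finite_singleton (ℵ_ y)).subset fun μ h => h.2)
            (fun μ h => h.1) (le_max_left _ _)
      | limit x hxlim _ =>
        intro hx
        have h1 : aSet κ.ord ∩ Set.Iio (ℵ_ x) ⊆ aSet x := by
          rintro μ ⟨g1, g2⟩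
          refine ⟨g1.1, Order.succ_le_of_lt (lt_of_lt_of_le ?_ g1.2.1), g2⟩
          rw [Cardinal.card_ord]
          exact (Cardinal.lt_ord.1 hx).trans (Order.lt_succ κ)
        have h3 : #(pcfS (aSet x)) ≤ #(aSet x) := by rw [← pcf_aSet]; exact hlt x hx hxlim
        refine (Cardinal.mk_le_mk_of_subset (pcfS_mono h1)).trans (h3.trans ?_)
        refine (mk_le_card fun _ h => ⟨h.1.1, h.2.2⟩).trans ?_
        exact Cardinal.lift_le.2 (le_max_right _ _)
    have hsub : (fun X => X ∩ Set.Iio x) '' (X '' pcf (aSet κ.ord)) ⊆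
        (fun Z : Set Cardinal.{u} => {ξ | ℵ_ ξ ∈ Z}) ''
          ((fun l => B l ∩ (aSet κ.ord ∩ Set.Iio (ℵ_ x))) '' pcf (aSet κ.ord)) := by
      rintro _ ⟨_, ⟨l, hl, rfl⟩, rfl⟩
      refine ⟨_, ⟨l, hl, rfl⟩, ?_⟩
      ext ξ
      constructor
      · rintro ⟨g1, g2, g3⟩
        exact ⟨g1, Cardinal.aleph_lt_aleph.1 g3⟩
      · rintro ⟨g1, g2⟩
        exact ⟨g1, (hB1 l hl).1 g1, Cardinal.aleph_lt_aleph.2 g2⟩
    refine (Cardinal.mk_le_mk_of_subset hsub).trans (Cardinal.mk_image_le.trans ?_)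
    refine (hB2 _ Set.inter_subset_left).trans ?_
    rw [← max_eq_right hx0, Cardinal.lift_max, Cardinal.lift_aleph0]
    refine max_le (le_max_left _ _) ?_
    have := hW x hx
    rwa [Cardinal.lift_max, Cardinal.lift_aleph0] at this

theorem chang {α : Ordinal.{u}} (hα : Order.IsSuccLimit α) {κ ν : Cardinal.{u}}
    (hκ : #(aSet α) = Cardinal.lift.{u + 1} κ) (h : Cardinal.lift.{u + 1} κ < #(pcf (aSet α)))
    (hν0 : ℵ₀ ≤ ν) (hC : Chang κ ν) :
    ∃ W ⊆ aSet α, #W ≤ Cardinal.lift.{u + 1} ν ∧ Cardinal.lift.{u + 1} ν < #(pcf W) := by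
  classical
  obtain ⟨B, hB1, hB2⟩ := traces hα
  -- index the members of `a_α` and `κ⁺` members of its pcf
  obtain ⟨i, hi1, hi2⟩ := exists_idx hκ.le
  have hle : #(Set.Iio (Order.succ κ).ord) ≤ #(pcf (aSet α)) := by
    rw [Cardinal.mk_Iio_ordinal, Cardinal.card_ord, Cardinal.lift_succ]
    exact Order.succ_le_of_lt h
  obtain ⟨e⟩ := hle
  let l : Ordinal.{u} → Cardinal.{u} := fun x =>
    if hx : x < (Order.succ κ).ord then (e ⟨x, hx⟩).1 else 0
  have hl1 : ∀ x < (Order.succ κ).ord, l x ∈ pcf (aSet α) := by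
    intro x hx
    simp only [l, dif_pos hx]
    exact (e ⟨x, hx⟩).2
  have hl2 : ∀ x < (Order.succ κ).ord, ∀ y < (Order.succ κ).ord, l x = l y → x = y := by
    intro x hx y hy hxy
    simp only [l, dif_pos hx, dif_pos hy] at hxy
    exact Subtype.mk.inj (e.injective (Subtype.ext hxy))
  have hdiff : ∀ x < (Order.succ κ).ord, ∀ y < (Order.succ κ).ord, x ≠ y →
      ∃ θ ∈ aSet α, ¬ (θ ∈ B (l x) ↔ θ ∈ B (l y)) := by
    intro x hx y hy hxy
    by_contra hcon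
    push Not at hcon
    have hBB : B (l x) = B (l y) := by
      ext θ
      constructor
      · intro h; exact (hcon θ ((hB1 _ (hl1 x hx)).1 h)).1 h
      · intro h; exact (hcon θ ((hB1 _ (hl1 y hy)).1 h)).2 h
    obtain ⟨_, g2, g3⟩ := hB1 _ (hl1 x hx)
    obtain ⟨_, g2', g3'⟩ := hB1 _ (hl1 y hy)
    rw [hBB] at g2 g3
    exact hxy (hl2 x hx y hy (le_antisymm (g3' _ g2) (g3 _ g2')))
  let P : Ordinal.{u} → Ordinal.{u} → Prop := fun x y =>
    x < (Order.succ κ).ord ∧ y < (Order.succ κ).ord ∧ x ≠ y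
  have hP : ∀ x y, P x y → ∃ θ ∈ aSet α, ¬ (θ ∈ B (l x) ↔ θ ∈ B (l y)) :=
    fun x y h => hdiff x h.1 y h.2.1 h.2.2
  let f : Ordinal.{u} → Ordinal.{u} → Ordinal.{u} := fun x y =>
    if h : P x y then i (hP x y h).choose else 0
  have hκκ : κ.ord < (Order.succ κ).ord := Cardinal.ord_lt_ord.2 (Order.lt_succ κ)
  obtain ⟨X, hX1, hX2, hX3, hX4⟩ := hC f (by
    intro x _ y _
    by_cases h : P x y
    · simp only [f, dif_pos h]
      exact (hi2 _ (hP x y h).choose_spec.1).trans hκκ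
    · simp only [f, dif_neg h]
      exact zero_le.trans_lt hκκ)
  refine ⟨{θ | θ ∈ aSet α ∧ i θ ∈ X}, fun θ h => h.1, ?_, ?_⟩
  · refine le_trans ?_ hX4
    refine Cardinal.mk_le_of_injective (f := fun θ : {θ | θ ∈ aSet α ∧ i θ ∈ X} =>
      (⟨i θ.1, θ.2.2, hi2 _ θ.2.1⟩ : (X ∩ Set.Iio κ.ord : Set Ordinal.{u}))) ?_
    intro a b hab
    exact Subtype.ext (hi1 a.2.1 b.2.1 (Subtype.mk.inj hab))
  · have h1 : #X ≤ max ℵ₀ #(pcf {θ | θ ∈ aSet α ∧ i θ ∈ X}) := by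
      refine le_trans ?_ (hB2 {θ | θ ∈ aSet α ∧ i θ ∈ X} fun θ h => h.1)
      refine Cardinal.mk_le_of_injective (f := fun x : X =>
        (⟨B (l x.1) ∩ {θ | θ ∈ aSet α ∧ i θ ∈ X}, l x.1, hl1 _ (hX1 x.2), rfl⟩ :
          ((fun l => B l ∩ {θ | θ ∈ aSet α ∧ i θ ∈ X}) '' pcf (aSet α) : Set _))) ?_
      intro x y hxy
      by_contra hne
      have hne' : x.1 ≠ y.1 := fun h => hne (Subtype.ext h)
      have hPxy : P x.1 y.1 := ⟨hX1 x.2, hX1 y.2, hne'⟩
      have hf : f x.1 y.1 ∈ X := hX2 _ x.2 _ y.2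
      simp only [f, dif_pos hPxy] at hf
      obtain ⟨g1, g2⟩ := (hP x.1 y.1 hPxy).choose_spec
      have hset := Subtype.mk.inj hxy
      apply g2
      constructor
      · intro h3
        have : (hP x.1 y.1 hPxy).choose ∈ B (l x.1) ∩ {θ | θ ∈ aSet α ∧ i θ ∈ X} := ⟨h3, g1, hf⟩
        rw [hset] at this
        exact this.1
      · intro h3
        have : (hP x.1 y.1 hPxy).choose ∈ B (l y.1) ∩ {θ | θ ∈ aSet α ∧ i θ ∈ X} := ⟨h3, g1, hf⟩
        rw [← hset] at this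
        exact this.1
    rw [hX3] at h1
    have h2 : Cardinal.lift.{u + 1} ν < Cardinal.lift.{u + 1} (Order.succ ν) :=
      Cardinal.lift_lt.2 (Order.lt_succ ν)
    rcases le_max_iff.1 h1 with h3 | h3
    · exact absurd ((Cardinal.aleph0_le_lift.2 hν0).trans_lt (h2.trans_le h3)) (lt_irrefl _)
    · exact h2.trans_le h3

theorem result :
    -- (1) representation by sets with few traces
    (∀ α : Ordinal.{u}, Order.IsSuccLimit α → ∃ B : Cardinal.{u} → Set Cardinal.{u},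
      (∀ l ∈ pcf (aSet α), B l ⊆ aSet α ∧ l ∈ pcf (B l) ∧ ∀ m ∈ pcf (B l), m ≤ l) ∧
      ∀ W ⊆ aSet α, #((fun l => B l ∩ W) '' pcf (aSet α)) ≤ max ℵ₀ #(pcf W)) ∧
    -- (2) Kurepa families
    (∀ κ : Cardinal.{u}, ℵ₀ ≤ κ → #(aSet κ.ord) < #(pcf (aSet κ.ord)) →
      (∀ x < κ.ord, Order.IsSuccLimit x → #(pcf (aSet x)) ≤ #(aSet x)) → KurepaFamily κ) ∧
    -- (3) Chang's conjecture
    (∀ (α : Ordinal.{u}) (κ ν : Cardinal.{u}), Order.IsSuccLimit α →
      #(aSet α) = Cardinal.lift.{u + 1} κ → #(aSet α) < #(pcf (aSet α)) → ℵ₀ ≤ ν → ν < κ →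
      (∃ W ⊆ aSet α, #W ≤ Cardinal.lift.{u + 1} ν ∧ Cardinal.lift.{u + 1} ν < #(pcf W)) ∨
        ¬ Chang κ ν) := by
  refine ⟨fun α hα => traces hα, fun κ h0 h hlt => kurepa h0 h hlt,
    fun α κ ν hα hκ h hν0 _ => ?_⟩
  by_cases hC : Chang κ ν
  · exact Or.inl (chang hα hκ (by rw [← hκ]; exact h) hν0 hC)
  · exact Or.inr hC

end Helper55.CR.OldKurepaType
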